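import Pool.Agent.Helper27.CB.St

/-! MODULE SNF of project CB (helper27): half of a symmetric body. -/

set_option autoImplicit false

open MeasureTheory Set
open scoped ENNReal Pointwise

namespace Pool.Agent.Helper47.CB

open Pool.Agent.Helper27.CB

theorem hSNF (hSLC : StSLC) (hSLK : StSLK) (hLAY : StLAY) : StSNF := by
  intro D hD hS
  obtain ⟨hc1, -, hc3, hc4⟩ := hSLC D hD
  obtain ⟨hk1, hk2, -, -, hk5, hk6, hho, hht⟩ := hSLK D hD
  have hlay := (hLAY D hD).1
  set I : Set ℝ := Prod.snd '' D with hI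
  set H : ℝ := sSup I with hH
  have hIc : IsCompact I := hk6 ▸ (hk1 0).1
  have hIv : Convex ℝ I := hk6 ▸ (hk1 0).2
  have hIne : I.Nonempty := hk6 ▸ hk2 0 le_rfl hho.le
  have hIneg : ∀ y ∈ I, -y ∈ I := by
    rintro y ⟨z, hz, rfl⟩
    exact ⟨-z, hS z hz, rfl⟩
  have hle : ∀ y ∈ I, y ≤ H := fun y hy => le_csSup hIc.bddAbove hy
  have hHI : H ∈ I := hIc.sSup_mem hIne
  have habs : ∀ y ∈ I, |y| ≤ H := fun y hy => abs_le.2 ⟨by linarith [hle _ (hIneg y hy)], hle y hy⟩
  have hH0 : 0 < H := by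
    by_contra hcon
    push Not at hcon
    have h1 : I = {0} := by
      apply Set.eq_singleton_iff_unique_mem.2
      have h2 : ∀ y ∈ I, y = 0 := fun y hy => abs_eq_zero.1
        (le_antisymm ((habs y hy).trans hcon) (abs_nonneg y))
      obtain ⟨y, hy⟩ := hIne
      exact ⟨h2 y hy ▸ hy, h2⟩
    have h3 : ht D = 0 := by
      unfold ht
      rw [← hI, h1, csSup_singleton, csInf_singleton, sub_zero]
    linarith
  have hmem : ∀ y, |y| ≤ H → y ∈ I := by
    intro y hy
    obtain ⟨h1, h2⟩ := abs_le.1 hy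
    have h3 := hIv (hIneg H hHI) hHI (a := (1 - y / H) / 2) (b := (1 + y / H) / 2)
      (by
        have : y / H ≤ 1 := (div_le_one hH0).2 h2
        linarith)
      (by
        have : -1 ≤ y / H := by rw [le_div_iff₀ hH0]; linarith
        linarith)
      (by ring)
    have h4 : ((1 - y / H) / 2) • (-H) + ((1 + y / H) / 2) • H = y := by
      simp only [smul_eq_mul]
      field_simp
      ring
    rwa [h4] at h3
  -- the length function
  have hlen : ∀ τ ∈ I, τ ∈ hs D (len D τ) := fun τ hτ => (hc1 τ _ (hc3 τ).1).2 ⟨hτ, le_rfl⟩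
  have hconc : ∀ x ∈ I, ∀ y ∈ I, ∀ a b : ℝ, 0 ≤ a → 0 ≤ b → a + b = 1 →
      a * len D x + b * len D y ≤ len D (a * x + b * y) := by
    intro x hx y hy a b ha hb hab
    have h1 := hk5 _ _ _ _ a b (hlen x hx) (hlen y hy) ha hb hab
    exact ((hc1 _ _ (add_nonneg (mul_nonneg ha (hc3 x).1) (mul_nonneg hb (hc3 y).1))).1 h1).2
  have hsneg : ∀ τ s, τ ∈ hs D s → -τ ∈ hs D s := by
    rintro τ s ⟨t, h1, h2⟩
    refine ⟨-t - s, ?_, ?_⟩
    · have h3 := hS _ h2
      have h4 : -((t + s, τ) : P2) = (-t - s, -τ) := by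
        ext
        · simp; ring
        · simp
      rwa [h4] at h3
    · have h3 := hS _ h1
      have h4 : -((t, τ) : P2) = (-t - s + s, -τ) := by
        ext
        · simp
        · simp
      rwa [h4] at h3
  have heven1 : ∀ τ ∈ I, len D τ ≤ len D (-τ) := by
    intro τ hτ
    exact ((hc1 _ _ (hc3 τ).1).1 (hsneg τ _ (hlen τ hτ))).2
  have heven : ∀ τ, len D (-τ) = len D τ := by
    intro τ
    by_cases hτ : τ ∈ I
    · have h1 := heven1 τ hτ
      have h2 := heven1 (-τ) (hIneg τ hτ)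
      rw [neg_neg] at h2
      exact le_antisymm h2 h1
    · rw [hc4 τ hτ, hc4 (-τ)]
      intro h
      apply hτ
      have := hIneg _ h
      rwa [neg_neg] at this
  have hanti : ∀ x y, 0 ≤ x → x ≤ y → y ≤ H → len D y ≤ len D x := by
    intro x y hx hxy hy
    rcases hx.eq_or_lt with h | h
    · subst h
      have hyI : y ∈ I := hmem y (by rw [abs_of_nonneg hxy]; exact hy)
      have h1 := hconc _ (hIneg y hyI) y hyI (1 / 2) (1 / 2) (by norm_num) (by norm_num)
        (by norm_num)
      rw [heven] at h1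
      have h2 : (1 / 2 : ℝ) * -y + 1 / 2 * y = 0 := by ring
      rw [h2] at h1
      linarith
    · have hy0 : 0 < y := lt_of_lt_of_le h hxy
      have hyI : y ∈ I := hmem y (by rw [abs_of_pos hy0]; exact hy)
      have hq : x / y ≤ 1 := (div_le_one hy0).2 hxy
      have hq0 : 0 ≤ x / y := div_nonneg hx hy0.le
      have h1 := hconc _ (hIneg y hyI) y hyI ((1 - x / y) / 2) ((1 + x / y) / 2)
        (by linarith) (by linarith) (by ring)
      rw [heven] at h1
      have h2 : ((1 - x / y) / 2) * -y + ((1 + x / y) / 2) * y = x := by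
        field_simp
        ring
      rw [h2] at h1
      have h3 : (1 - x / y) / 2 * len D y + (1 + x / y) / 2 * len D y = len D y := by ring
      rwa [h3] at h1
  have h0 : 0 < len D 0 := by
    obtain ⟨τ, hτ⟩ := hk2 (ho D) hho.le le_rfl
    obtain ⟨hτI, h1⟩ := (hc1 τ _ hho.le).1 hτ
    have h2 : len D |τ| = len D τ := by
      rcases abs_choice τ with h | h
      · rw [h]
      · rw [h, heven]
    have h3 := hanti 0 |τ| le_rfl (abs_nonneg τ) (habs τ hτI)
    linarith
  refine ⟨hH0, ⟨convex_Icc _ _, ?_⟩, ?_, ?_, ?_⟩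
  · intro x hx y hy a b ha hb hab
    simp only [smul_eq_mul]
    exact hconc x (hmem x (by rw [abs_of_nonneg hx.1]; exact hx.2)) y
      (hmem y (by rw [abs_of_nonneg hy.1]; exact hy.2)) a b ha hb hab
  · intro x hx y hy hxy
    exact hanti x y hx.1 hxy hy.2
  · intro x hx hxH
    have hq : x / H < 1 := (div_lt_one hH0).2 hxH
    have hq0 : 0 ≤ x / H := div_nonneg hx hH0.le
    have h1 := hconc 0 (hmem 0 (by rw [abs_zero]; exact hH0.le)) H hHI (1 - x / H) (x / H)
      (by linarith) hq0 (by ring)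
    have h2 : (1 - x / H) * 0 + x / H * H = x := by
      field_simp
      ring
    rw [h2] at h1
    have h3 : 0 ≤ x / H * len D H := mul_nonneg hq0 (hc3 H).1
    have h4 : 0 < (1 - x / H) * len D 0 := mul_pos (by linarith) h0
    linarith
  · rw [← hlay, intervalIntegral.integral_of_le hH0.le]
    have h1 : (∫ τ, len D τ) = ∫ τ, len D |τ| := by
      congr 1
      funext τ
      rcases abs_choice τ with h | h
      · rw [h]
      · rw [h, heven]
    rw [h1, integral_comp_abs (f := fun τ => len D τ)]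
    congr 1
    symm
    apply setIntegral_eq_of_subset_of_forall_diff_eq_zero measurableSet_Ioi Ioc_subset_Ioi_self
    rintro x ⟨hx1, hx2⟩
    apply hc4
    intro hxI
    exact hx2 ⟨hx1, hle x hxI⟩

end Pool.Agent.Helper47.CB
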