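import Pool.Agent.Helper97.CB.St

/-! MODULE WID of project CB: horizontal chords of a planar convex body. -/

set_option autoImplicit false

open MeasureTheory Set Filter
open scoped Pointwise Topology

namespace Pool.Agent.Helper47.CB

open Helper97.CB

theorem WID_mix {K : Set ℂ} (hK : Convex ℝ K) {s t a b : ℝ} {z w : ℂ} (hz : z ∈ Sh K s)
    (hw : w ∈ Sh K t) (ha : 0 ≤ a) (hb : 0 ≤ b) (hab : a + b = 1) :
    a • z + b • w ∈ Sh K (a * s + b * t) := by
  refine ⟨hK hz.1 hw.1 ha hb hab, ?_⟩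
  have h := hK hz.2 hw.2 ha hb hab
  convert h using 1
  simp only [Complex.real_smul]
  push_cast
  ring

theorem WID_compact {K : Set ℂ} (hK : IsCompact K) (s : ℝ) : IsCompact (Sh K s) := by
  have h : Sh K s = K ∩ (fun z => z + (s : ℂ)) ⁻¹' K := rfl
  rw [h]
  exact hK.inter_right (hK.isClosed.preimage (by fun_prop))

theorem WID_S {K : Set ℂ} (hK : IsCompact K) :
    IsCompact {s : ℝ | 0 ≤ s ∧ (Sh K s).Nonempty} := by
  have h1 : IsCompact ((K ×ˢ K) ∩ ({p : ℂ × ℂ | p.2.im = p.1.im} ∩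
      {p : ℂ × ℂ | p.1.re ≤ p.2.re})) := by
    apply (hK.prod hK).inter_right
    apply IsClosed.inter
    · exact isClosed_eq (by fun_prop) (by fun_prop)
    · exact isClosed_le (by fun_prop) (by fun_prop)
  have h2 : {s : ℝ | 0 ≤ s ∧ (Sh K s).Nonempty} = (fun p : ℂ × ℂ => p.2.re - p.1.re) ''
      ((K ×ˢ K) ∩ ({p : ℂ × ℂ | p.2.im = p.1.im} ∩ {p : ℂ × ℂ | p.1.re ≤ p.2.re})) := by
    ext s
    constructor
    · rintro ⟨hs, z, hz1, hz2⟩
      exact ⟨(z, z + s), ⟨⟨hz1, hz2⟩, by simp, by simp [hs]⟩, by simp⟩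
    · rintro ⟨⟨z, w⟩, ⟨⟨hz, hw⟩, h3, h4⟩, rfl⟩
      simp only [mem_ofPred_eq] at h3 h4 hz hw ⊢
      refine ⟨by linarith, z, hz, ?_⟩
      have h5 : z + ((w.re - z.re : ℝ) : ℂ) = w := by
        apply Complex.ext <;> simp [h3]
      rwa [h5]
  rw [h2]
  exact h1.image (by fun_prop)

theorem WID_disk {K : Set ℂ} (hK : IsBody K) :
    ∃ (z : ℂ) (ε : ℝ), 0 < ε ∧ Metric.closedBall z ε ⊆ K := by
  obtain ⟨z, hz⟩ := hK.2.2
  obtain ⟨ε, hε, h⟩ := Metric.nhds_basis_closedBall.mem_iff.1 (mem_interior_iff_mem_nhds.1 hz)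
  exact ⟨z, ε, hε, h⟩

/-- the superlevel sets of `wid` are closed -/
theorem WID_closed {K : Set ℂ} (hK : IsCompact K) (c r : ℝ) :
    IsClosed {s : ℝ | s ∈ Icc 0 c ∧ ∃ z ∈ Sh K s, ∃ w ∈ Sh K s, r ≤ z.im - w.im} := by
  have h1 : IsCompact (((Icc 0 c) ×ˢ (K ×ˢ K)) ∩
      ((fun p : ℝ × ℂ × ℂ => p.2.1 + (p.1 : ℂ)) ⁻¹' K ∩
      ((fun p : ℝ × ℂ × ℂ => p.2.2 + (p.1 : ℂ)) ⁻¹' K ∩
        {p : ℝ × ℂ × ℂ | r ≤ p.2.1.im - p.2.2.im}))) := by
    apply (isCompact_Icc.prod (hK.prod hK)).inter_right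
    apply IsClosed.inter (hK.isClosed.preimage (by fun_prop))
    apply IsClosed.inter (hK.isClosed.preimage (by fun_prop))
    exact isClosed_le (by fun_prop) (by fun_prop)
  have h2 : {s : ℝ | s ∈ Icc 0 c ∧ ∃ z ∈ Sh K s, ∃ w ∈ Sh K s, r ≤ z.im - w.im} =
      Prod.fst '' (((Icc 0 c) ×ˢ (K ×ˢ K)) ∩
      ((fun p : ℝ × ℂ × ℂ => p.2.1 + (p.1 : ℂ)) ⁻¹' K ∩
      ((fun p : ℝ × ℂ × ℂ => p.2.2 + (p.1 : ℂ)) ⁻¹' K ∩
        {p : ℝ × ℂ × ℂ | r ≤ p.2.1.im - p.2.2.im}))) := by
    ext s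
    constructor
    · rintro ⟨hs, z, hz, w, hw, h⟩
      exact ⟨(s, z, w), ⟨⟨hs, hz.1, hw.1⟩, hz.2, hw.2, h⟩, rfl⟩
    · rintro ⟨⟨s', z, w⟩, ⟨⟨hs, hz, hw⟩, hz2, hw2, h⟩, rfl⟩
      exact ⟨hs, z, ⟨hz, hz2⟩, w, ⟨hw, hw2⟩, h⟩
  rw [h2]
  exact (h1.image continuous_fst).isClosed

/-- the extreme heights are attained -/
theorem WID_att {K : Set ℂ} (hK : IsCompact K) {s : ℝ} (hs : (Sh K s).Nonempty) :
    ∃ z ∈ Sh K s, ∃ w ∈ Sh K s, wid K s = z.im - w.im ∧
      ∀ y ∈ Sh K s, y.im ≤ z.im ∧ w.im ≤ y.im := by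
  have hc := (WID_compact hK s).image Complex.continuous_im
  have hne : (Complex.im '' Sh K s).Nonempty := hs.image _
  obtain ⟨z, hz, hz2⟩ := hc.sSup_mem hne
  obtain ⟨w, hw, hw2⟩ := hc.sInf_mem hne
  refine ⟨z, hz, w, hw, ?_, ?_⟩
  · unfold wid
    rw [hz2, hw2]
  · intro y hy
    rw [hz2, hw2]
    exact ⟨le_csSup hc.bddAbove ⟨y, hy, rfl⟩, csInf_le hc.bddBelow ⟨y, hy, rfl⟩⟩

theorem WID_le {K : Set ℂ} (hK : IsCompact K) {s : ℝ} {z w : ℂ} (hz : z ∈ Sh K s)
    (hw : w ∈ Sh K s) : z.im - w.im ≤ wid K s := by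
  obtain ⟨z', _, w', _, h1, h2⟩ := WID_att hK ⟨z, hz⟩
  have := (h2 z hz).1
  have := (h2 w hw).2
  linarith

theorem WID_Sh0 (K : Set ℂ) : Sh K 0 = K := by
  ext z
  simp [Sh]

theorem hWID : StWid := by
  intro K hB
  obtain ⟨z₀, ε, hε, hball⟩ := WID_disk hB
  obtain ⟨hK, hKc, hKi⟩ := hB
  set S : Set ℝ := {s : ℝ | 0 ≤ s ∧ (Sh K s).Nonempty} with hS
  have hSc : IsCompact S := WID_S hKc
  have hmem : ∀ z : ℂ, ‖z - z₀‖ ≤ ε → z ∈ K := fun z hz =>
    hball (by rw [Metric.mem_closedBall, dist_eq_norm]; exact hz)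
  have hz₀ : z₀ ∈ K := hmem z₀ (by simpa using hε.le)
  have hεS : ε ∈ S := by
    refine ⟨hε.le, z₀, hz₀, hmem _ ?_⟩
    simp [abs_of_pos hε]
  have hcm : cmax K = sSup S := rfl
  have hcS : cmax K ∈ S := hSc.sSup_mem ⟨ε, hεS⟩
  have hεc : ε ≤ cmax K := le_csSup hSc.bddAbove hεS
  set c : ℝ := cmax K with hc
  have hc0 : 0 < c := lt_of_lt_of_le hε hεc
  -- chords
  have hne : ∀ s ∈ Icc 0 c, (Sh K s).Nonempty := by
    intro s hs
    obtain ⟨z, hz⟩ := hcS.2
    refine ⟨z, hz.1, ?_⟩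
    have h1 := hK hz.1 hz.2 (a := 1 - s / c) (b := s / c)
      (by rw [sub_nonneg, div_le_one hc0]; exact hs.2) (div_nonneg hs.1 hc0.le) (by ring)
    have h2 : (1 - s / c) • z + (s / c) • (z + (c : ℂ)) = z + (s : ℂ) := by
      simp only [Complex.real_smul]
      have : (c : ℂ) ≠ 0 := by exact_mod_cast hc0.ne'
      push_cast
      field_simp
      ring
    rwa [h2] at h1
  have hemp : ∀ s, c < s → Sh K s = ∅ := by
    intro s hs
    by_contra hcon
    have h1 : s ∈ S := ⟨(hc0.trans hs).le, nonempty_iff_ne_empty.2 hcon⟩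
    have h2 : s ≤ c := le_csSup hSc.bddAbove h1
    linarith
  have h0 : (0 : ℝ) ∈ Icc 0 c := ⟨le_refl _, hc0.le⟩
  have hcc : c ∈ Icc 0 c := ⟨hc0.le, le_refl _⟩
  have hW0 : 0 < wid K 0 := by
    have h1 : z₀ + (ε : ℂ) * Complex.I ∈ Sh K 0 := by
      rw [WID_Sh0]
      apply hmem
      simp [abs_of_pos hε]
    have h2 : z₀ ∈ Sh K 0 := by
      rw [WID_Sh0]
      exact hz₀
    have h3 := WID_le hKc h1 h2
    simp at h3
    linarith
  have hnn : ∀ s ∈ Icc 0 c, 0 ≤ wid K s := by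
    intro s hs
    obtain ⟨z, hz⟩ := hne s hs
    have := WID_le hKc hz hz
    linarith
  have hle0 : ∀ s ∈ Icc 0 c, wid K s ≤ wid K 0 := by
    intro s hs
    obtain ⟨z, hz, w, hw, h1, -⟩ := WID_att hKc (hne s hs)
    rw [h1]
    apply WID_le hKc
    · rw [WID_Sh0]; exact hz.1
    · rw [WID_Sh0]; exact hw.1
  have hconc : ConcaveOn ℝ (Icc 0 c) (wid K) := by
    refine ⟨convex_Icc _ _, ?_⟩
    intro s hs t ht a b ha hb hab
    obtain ⟨z, hz, w, hw, h1, -⟩ := WID_att hKc (hne s hs)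
    obtain ⟨z', hz', w', hw', h1', -⟩ := WID_att hKc (hne t ht)
    have h2 := WID_le hKc (WID_mix hK hz hz' ha hb hab) (WID_mix hK hw hw' ha hb hab)
    simp only [smul_eq_mul]
    rw [h1, h1']
    simp only [Complex.add_im, Complex.smul_im, smul_eq_mul] at h2
    linarith
  have hcont : ContinuousOn (wid K) (Icc 0 c) := by
    intro s hs
    rcases hs.1.eq_or_lt with h | h
    · -- left end point
      subst h
      show Tendsto (wid K) (𝓝[Icc 0 c] 0) (𝓝 (wid K 0))
      have hlow : Tendsto (fun t : ℝ => (1 - t / c) * wid K 0) (𝓝[Icc 0 c] 0)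
          (𝓝 (wid K 0)) := by
        have h1 : Tendsto (fun t : ℝ => (1 - t / c) * wid K 0) (𝓝 0)
            (𝓝 ((1 - 0 / c) * wid K 0)) := by
          apply Continuous.tendsto (f := fun t : ℝ => (1 - t / c) * wid K 0)
          fun_prop
        have h2 : (1 - 0 / c) * wid K 0 = wid K 0 := by ring
        rw [h2] at h1
        exact h1.mono_left nhdsWithin_le_nhds
      refine tendsto_of_tendsto_of_tendsto_of_le_of_le' hlow tendsto_const_nhds ?_ ?_
      · filter_upwards [self_mem_nhdsWithin] with t ht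
        have h1 := hconc.2 h0 hcc (show 0 ≤ 1 - t / c by
          rw [sub_nonneg, div_le_one hc0]; exact ht.2) (div_nonneg ht.1 hc0.le) (by ring)
        have h2 : (1 - t / c) • (0 : ℝ) + (t / c) • c = t := by
          simp only [smul_eq_mul]
          field_simp
          ring
        rw [h2] at h1
        simp only [smul_eq_mul] at h1
        have h3 : 0 ≤ t / c * wid K c := mul_nonneg (div_nonneg ht.1 hc0.le) (hnn c hcc)
        linarith
      · filter_upwards [self_mem_nhdsWithin] with t ht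
        exact hle0 t ht
    · rcases hs.2.eq_or_lt with h' | h'
      · -- right end point
        subst h'
        show Tendsto (wid K) (𝓝[Icc 0 c] c) (𝓝 (wid K c))
        have hlow : Tendsto (fun t : ℝ => (t / c) * wid K c) (𝓝[Icc 0 c] c)
            (𝓝 (wid K c)) := by
          have h1 : Tendsto (fun t : ℝ => (t / c) * wid K c) (𝓝 c)
              (𝓝 ((c / c) * wid K c)) := by
            apply Continuous.tendsto (f := fun t : ℝ => (t / c) * wid K c)
            fun_prop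
          have h2 : (c / c) * wid K c = wid K c := by
            rw [div_self h.ne', one_mul]
          rw [h2] at h1
          exact h1.mono_left nhdsWithin_le_nhds
        rw [tendsto_order]
        constructor
        · intro a ha
          have h1 := (tendsto_order.1 hlow).1 a ha
          filter_upwards [h1, self_mem_nhdsWithin] with t ht1 ht
          have h1 := hconc.2 h0 hcc (show 0 ≤ 1 - t / c by
            rw [sub_nonneg, div_le_one hc0]; exact ht.2) (div_nonneg ht.1 hc0.le) (by ring)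
          have h2 : (1 - t / c) • (0 : ℝ) + (t / c) • c = t := by
            simp only [smul_eq_mul]
            field_simp
            ring
          rw [h2] at h1
          simp only [smul_eq_mul] at h1
          have h3 : 0 ≤ (1 - t / c) * wid K 0 := mul_nonneg
            (by rw [sub_nonneg, div_le_one hc0]; exact ht.2) hW0.le
          linarith
        · intro a ha
          have hcl := WID_closed hKc c a
          have hns : c ∉ {t : ℝ | t ∈ Icc 0 c ∧ ∃ z ∈ Sh K t, ∃ w ∈ Sh K t, a ≤ z.im - w.im} := by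
            rintro ⟨-, z, hz, w, hw, hzw⟩
            have := WID_le hKc hz hw
            linarith
          have h1 := hcl.isOpen_compl.mem_nhds hns
          filter_upwards [mem_nhdsWithin_of_mem_nhds h1, self_mem_nhdsWithin] with t ht1 ht
          by_contra hcon
          push Not at hcon
          apply ht1
          obtain ⟨z, hz, w, hw, h2, -⟩ := WID_att hKc (hne t ht)
          exact ⟨ht, z, hz, w, hw, by linarith⟩
      · -- interior
        have h1 : ContinuousOn (wid K) (interior (Icc 0 c)) := hconc.continuousOn_interior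
        rw [interior_Icc] at h1
        exact (h1.continuousAt (Ioo_mem_nhds h h')).continuousWithinAt
  refine ⟨hc0, hW0, hconc, hcont, fun s hs => ⟨hne s hs, hnn s hs, hle0 s hs⟩, hemp, ?_⟩
  intro z hz w hw
  apply WID_le hKc
  · rw [WID_Sh0]; exact hz
  · rw [WID_Sh0]; exact hw

end Pool.Agent.Helper47.CB
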